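import Pool.Agent.U15.MV4.CN0
import Pool.Agent.H382R2.Final0

/-!
# Project MV4, package CN: the zeros of the zeta function
-/

set_option autoImplicit false

namespace Pool.Agent.U15.MV4

open Complex MeasureTheory Filter Topology Set
open Pool.Agent.U84.MV2 Pool.Agent.U398.MV

theorem NZ_Nz (t u : ℝ) (ht : 0 < t) (htu : t < u) : SG.NZ u = SG.NZ t + Nz t u := by
  have hfin : ({s : ℂ | riemannZeta s = 0 ∧ 0 < s.re ∧ s.re < 1 ∧ t < s.im ∧ s.im ≤ u} :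
      Set ℂ).Finite := by
    refine (SG.ZS_finite u).subset ?_
    rintro s ⟨h1, h2, h3, h4, h5⟩
    exact ⟨h1, h2, h3, by linarith, h5⟩
  have hdisj : Disjoint (SG.ZS t)
      {s : ℂ | riemannZeta s = 0 ∧ 0 < s.re ∧ s.re < 1 ∧ t < s.im ∧ s.im ≤ u} := by
    rw [Set.disjoint_left]
    rintro s ⟨_, _, _, _, h5⟩ ⟨_, _, _, h4, _⟩
    linarith
  have hun : SG.ZS u = SG.ZS t ∪
      {s : ℂ | riemannZeta s = 0 ∧ 0 < s.re ∧ s.re < 1 ∧ t < s.im ∧ s.im ≤ u} := by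
    ext s
    constructor
    · rintro ⟨h1, h2, h3, h4, h5⟩
      by_cases h : s.im ≤ t
      · exact Or.inl ⟨h1, h2, h3, h4, h⟩
      · exact Or.inr ⟨h1, h2, h3, not_le.1 h, h5⟩
    · rintro (⟨h1, h2, h3, h4, h5⟩ | ⟨h1, h2, h3, h4, h5⟩)
      · exact ⟨h1, h2, h3, h4, by linarith⟩
      · exact ⟨h1, h2, h3, by linarith, h5⟩
  have h := finsum_mem_union (f := SG.zmult) hdisj (SG.ZS_finite t) hfin
  rw [← hun] at h
  exact h

/-- package CN -/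
theorem t_CN : J_CN SG.NZ SG.ord := by
  obtain ⟨C1, hC1, h⟩ := coreB SG.NZ_mono NZ_Nz SG.NZ_right
  exact ⟨⟨C1, hC1, ⟨SG.NZ_mono, fun n hn t => SG.ord_le_iff hn t, h⟩⟩, coreC NZ_Nz⟩

end Pool.Agent.U15.MV4
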