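import Pool.Agent.H370R2.Local
import Pool.Agent.H370R2.DirGood
import Pool.Agent.U84.MV2.SC

/-!
# Project MV4, package CN: the bound `O(log t)` for the argument function

`ext_bd` is `H370.Loc.extract_bound` of `Pool.Agent.H382P.LocExp` with the number of the zeros.
-/

set_option autoImplicit false

namespace Pool.Agent.U15.MV4

open Complex MeasureTheory Filter Topology Set Metric H370 H370.Loc
open Pool.Agent.U84.MV2

lemma ext_bd {f : ℂ → ℂ} {c : ℂ} {r r1 r2 R M : ℝ} (hr2 : 0 < r2) (h21 : r2 < r1)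
    (h1r : r1 < r) (hrR : r < R) (hRr : R ≤ 2 * r) (hM : 1 ≤ M) (hMf : ‖f c‖ ≤ M)
    (hf : AnalyticOnNhd ℂ f (closedBall c R)) (hc : f c ≠ 0)
    (hb : ∀ z ∈ closedBall c R, ‖f z‖ ≤ M) :
    ∃ (s : Multiset ℂ) (g : ℂ → ℂ), (∀ ρ ∈ s, ρ ∈ closedBall c r ∧ f ρ = 0) ∧
      AnalyticOnNhd ℂ g (closedBall c R) ∧ (∀ z, f z = Pf s z * g z) ∧
      (∀ z ∈ closedBall c r, g z ≠ 0) ∧
      (Multiset.card s : ℝ) ≤ Real.log (M / ‖f c‖) / Real.log (R / r) ∧
      ∀ z ∈ closedBall c r2, ‖logDeriv g z‖ ≤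
        2 * (Real.log (M / ‖f c‖) + Real.log (M / ‖f c‖) / Real.log (R / r) *
          Real.log (r / (R - r)) + 1) * r1 / (r - r1) / (r1 - r2) := by
  have hr : 0 < r := by linarith
  have hR : 0 < R := by linarith
  obtain ⟨s, g, hs, hg, hfg, hg0, hcard⟩ := extract hr hrR hM hf hc hb
  refine ⟨s, g, hs, hg, hfg, hg0, hcard, ?_⟩
  intro z hz
  have hfc : 0 < ‖f c‖ := norm_pos_iff.2 hc
  set n := Multiset.card s with hn
  have hlogM : 0 ≤ Real.log (M / ‖f c‖) := Real.log_nonneg (by rw [le_div_iff₀ hfc]; linarith)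
  have hRr0 : 0 < R - r := by linarith
  have hq : 1 ≤ r / (R - r) := by rw [le_div_iff₀ hRr0]; linarith
  have hlogq : 0 ≤ Real.log (r / (R - r)) := Real.log_nonneg hq
  -- bounds for g
  have hgsphere : ∀ w ∈ sphere c R, ‖g w‖ ≤ M / (R - r) ^ n := by
    intro w hw
    have hwR := sphere_subset_closedBall hw
    have h1 : (R - r) ^ n ≤ ‖Pf s w‖ := Pf_norm_ge hRr0.le fun ρ hρ => by
      have h2 := (hs ρ hρ).1
      rw [mem_closedBall, dist_eq_norm] at h2
      rw [mem_sphere, dist_eq_norm] at hw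
      have h3 : ‖w - c‖ ≤ ‖w - ρ‖ + ‖ρ - c‖ := by
        calc ‖w - c‖ = ‖(w - ρ) + (ρ - c)‖ := by congr 1; ring
          _ ≤ _ := norm_add_le _ _
      linarith
    rw [le_div_iff₀ (by positivity)]
    calc ‖g w‖ * (R - r) ^ n ≤ ‖g w‖ * ‖Pf s w‖ := mul_le_mul_of_nonneg_left h1 (norm_nonneg _)
      _ = ‖f w‖ := by rw [hfg w, norm_mul, mul_comm]
      _ ≤ M := hb w hwR
  have hgball : ∀ w ∈ closedBall c R, ‖g w‖ ≤ M / (R - r) ^ n := by
    intro w hw
    refine Complex.norm_le_of_forall_mem_frontier_norm_le (U := ball c R) isBounded_ball ?_ ?_ ?_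
    · apply DifferentiableOn.diffContOnCl
      rw [closure_ball c hR.ne']
      exact fun x hx => (hg x hx).differentiableAt.differentiableWithinAt
    · intro x hx
      rw [frontier_ball c hR.ne'] at hx
      exact hgsphere x hx
    · rwa [closure_ball c hR.ne']
  have hgc : ‖f c‖ / r ^ n ≤ ‖g c‖ := by
    rw [div_le_iff₀ (by positivity)]
    have h1 : ‖Pf s c‖ ≤ r ^ n := Pf_norm_le fun ρ hρ => by
      have h2 := (hs ρ hρ).1
      rw [mem_closedBall, dist_eq_norm, norm_sub_rev] at h2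
      exact h2
    calc ‖f c‖ = ‖g c‖ * ‖Pf s c‖ := by rw [hfg c, norm_mul, mul_comm]
      _ ≤ ‖g c‖ * r ^ n := mul_le_mul_of_nonneg_left h1 (norm_nonneg _)
  set B : ℝ := Real.log (M / ‖f c‖) + n * Real.log (r / (R - r)) with hB
  have hB0 : 0 ≤ B := by positivity
  have hexpB : Real.exp B = M / ‖f c‖ * (r / (R - r)) ^ n := by
    rw [hB, Real.exp_add, Real.exp_log (by positivity), Real.exp_nat_mul,
      Real.exp_log (by positivity)]
  have hgb : ∀ w ∈ closedBall c r, ‖g w‖ ≤ Real.exp B * ‖g c‖ := by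
    intro w hw
    refine (hgball w (closedBall_subset_closedBall hrR.le hw)).trans ?_
    rw [hexpB]
    calc M / (R - r) ^ n = M / ‖f c‖ * (r / (R - r)) ^ n * (‖f c‖ / r ^ n) := by
          rw [div_pow]; field_simp
      _ ≤ _ := mul_le_mul_of_nonneg_left hgc (by positivity)
  have hlg := logDeriv_zero_free hr2 h21 h1r hB0
    (hg.mono (closedBall_subset_closedBall hrR.le)) hg0 hgb hz
  refine hlg.trans ?_
  have h8 : B ≤ Real.log (M / ‖f c‖) + Real.log (M / ‖f c‖) / Real.log (R / r) *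
          Real.log (r / (R - r)) := by
    rw [hB]
    have := mul_le_mul_of_nonneg_right hcard hlogq
    linarith
  have h9 : 0 < r - r1 := by linarith
  have h10 : 0 < r1 - r2 := by linarith
  have h11 : 0 < r1 := by linarith
  gcongr


/-- the sum of the partial fractions -/
noncomputable def pf (s : Multiset ℂ) (z : ℂ) : ℂ := (s.map fun ρ => 1 / (z - ρ)).sum

lemma logDeriv_Pf' {s : Multiset ℂ} {z : ℂ} (h : ∀ ρ ∈ s, z ≠ ρ) : logDeriv (Pf s) z = pf s z := by
  induction s using Multiset.induction_on with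
  | empty =>
    have : Pf 0 = fun _ => (1 : ℂ) := funext Pf_zero
    rw [this]
    simp [logDeriv, pf]
  | cons ρ s ih =>
    have : Pf (ρ ::ₘ s) = fun z => (z - ρ) * Pf s z := funext (Pf_cons ρ s)
    have hz : z - ρ ≠ 0 := sub_ne_zero.2 (h ρ (Multiset.mem_cons_self ρ s))
    have hP : Pf s z ≠ 0 := Pf_ne_zero fun ρ' h' => h ρ' (Multiset.mem_cons_of_mem h')
    have e1 : logDeriv (fun z => (z - ρ) * Pf s z) z =
        logDeriv (fun z => z - ρ) z + logDeriv (Pf s) z :=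
      logDeriv_mul z hz hP (differentiableAt_id.sub_const ρ) (Pf_diff s z)
    have e2 : logDeriv (fun z : ℂ => z - ρ) z = 1 / (z - ρ) := by
      rw [logDeriv_apply]
      simp
    rw [this, e1, e2, ih fun ρ' h' => h ρ' (Multiset.mem_cons_of_mem h')]
    unfold pf
    rw [Multiset.map_cons, Multiset.sum_cons]

lemma one_im (x t : ℝ) (ρ : ℂ) : (1 / ((x : ℂ) + t * I - ρ)).im =
    -((t - ρ.im) / ((x - ρ.re) ^ 2 + (t - ρ.im) ^ 2)) := by
  rw [one_div, inv_im, normSq_apply]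
  simp only [sub_re, add_re, ofReal_re, mul_re, I_re, mul_zero, ofReal_im, I_im, mul_one,
    sub_self, add_zero, sub_im, add_im, mul_im, zero_add]
  rw [neg_div]
  congr 2
  ring

lemma one_cont {t : ℝ} {ρ : ℂ} (h : ρ.im ≠ t) :
    Continuous fun x : ℝ => (1 / ((x : ℂ) + t * I - ρ)).im := by
  have hne : ∀ x : ℝ, (x : ℂ) + t * I - ρ ≠ 0 := by
    intro x h0
    have := congrArg Complex.im h0
    simp at this
    apply h
    linarith
  refine continuous_im.comp ?_
  exact continuous_const.div (by fun_prop) hne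

lemma one_int {t : ℝ} {ρ : ℂ} (h : ρ.im ≠ t) :
    |∫ x in (1 / 2 : ℝ)..2, (1 / ((x : ℂ) + t * I - ρ)).im| ≤ Real.pi := by
  set b : ℝ := t - ρ.im with hb
  have hb0 : b ≠ 0 := sub_ne_zero.2 (Ne.symm h)
  have h1 : ∀ x ∈ Set.uIcc (1 / 2 : ℝ) 2, HasDerivAt (fun x : ℝ => -Real.arctan ((x - ρ.re) / b))
      ((1 / ((x : ℂ) + t * I - ρ)).im) x := by
    intro x _
    have h2 : HasDerivAt (fun x : ℝ => (x - ρ.re) / b) (1 / b) x :=
      ((hasDerivAt_id x).sub_const ρ.re).div_const b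
    refine (h2.arctan.neg).congr_deriv ?_
    rw [one_im, ← hb]
    congr 1
    have h3 : (x - ρ.re) ^ 2 + b ^ 2 ≠ 0 := by positivity
    field_simp
    ring
  rw [intervalIntegral.integral_eq_sub_of_hasDerivAt h1 ((one_cont h).intervalIntegrable _ _)]
  have h2 := Real.arctan_lt_pi_div_two ((2 - ρ.re) / b)
  have h3 := Real.neg_pi_div_two_lt_arctan ((2 - ρ.re) / b)
  have h4 := Real.arctan_lt_pi_div_two ((1 / 2 - ρ.re) / b)
  have h5 := Real.neg_pi_div_two_lt_arctan ((1 / 2 - ρ.re) / b)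
  rw [abs_le]
  constructor <;> linarith

lemma pf_int {t : ℝ} (s : Multiset ℂ) (h : ∀ ρ ∈ s, ρ.im ≠ t) :
    (Continuous fun x : ℝ => (pf s ((x : ℂ) + t * I)).im) ∧
    |∫ x in (1 / 2 : ℝ)..2, (pf s ((x : ℂ) + t * I)).im| ≤ Real.pi * Multiset.card s := by
  induction s using Multiset.induction_on with
  | empty => simp [pf, continuous_const]
  | cons ρ s ih =>
    obtain ⟨h1, h2⟩ := ih fun ρ' h' => h ρ' (Multiset.mem_cons_of_mem h')
    have h3 := h ρ (Multiset.mem_cons_self ρ s)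
    have e : (fun x : ℝ => (pf (ρ ::ₘ s) ((x : ℂ) + t * I)).im) = fun x : ℝ =>
        (1 / ((x : ℂ) + t * I - ρ)).im + (pf s ((x : ℂ) + t * I)).im := by
      funext x
      unfold pf
      rw [Multiset.map_cons, Multiset.sum_cons, add_im]
    rw [e]
    refine ⟨(one_cont h3).add h1, ?_⟩
    rw [intervalIntegral.integral_add ((one_cont h3).intervalIntegrable _ _)
      (h1.intervalIntegrable _ _), Multiset.card_cons]
    refine (abs_add_le _ _).trans ?_
    push_cast
    have := one_int h3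
    linarith

/-- the horizontal integral -/
theorem hor_bd : ∃ C : ℝ, 0 < C ∧ ∀ t : ℝ, 3 ≤ t → NoOrd t →
    |∫ x in (1 / 2 : ℝ)..2, (logDeriv riemannZeta ((x : ℂ) + t * I)).im| ≤ C * Real.log t := by
  obtain ⟨K, hK, hdata⟩ := ball_data good_zeta
  set q : ℝ := Real.log (1.9 / 1.7) with hq
  have hq0 : 0 < q := Real.log_pos (by norm_num)
  set ℓ : ℝ := Real.log (1.7 / (1.9 - 1.7)) with hℓ
  have hℓ0 : 0 ≤ ℓ := Real.log_nonneg (by norm_num)
  set D : ℝ := 2 * (K + K / q * ℓ + 1) * 1.6 / (1.7 - 1.6) / (1.6 - 1.5) with hD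
  have hD0 : 0 ≤ D := by
    rw [hD]
    have : (0 : ℝ) ≤ K / q * ℓ := by positivity
    have h1 : (0 : ℝ) < 1.7 - 1.6 := by norm_num
    have h2 : (0 : ℝ) < 1.6 - 1.5 := by norm_num
    positivity
  refine ⟨Real.pi * (K / q) + D * 2, by have := Real.pi_pos; positivity, fun t ht hno => ?_⟩
  obtain ⟨M, hM, han, hc, hb, hMf, hl0, hlog⟩ := hdata t ht
  have hlt := one_le_log ht
  obtain ⟨s, g, hs, hg, hfg, hg0, hcard, hlg⟩ := ext_bd (f := riemannZeta) (c := ⟨2, t⟩)
    (r := 1.7) (r1 := 1.6) (r2 := 1.5) (R := 1.9) (M := M) (by norm_num) (by norm_num)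
    (by norm_num) (by norm_num) (by norm_num) hM hMf han hc hb
  rw [← hq] at hcard hlg
  rw [← hℓ] at hlg
  have hns : ∀ ρ ∈ s, ρ.im ≠ t := by
    intro ρ hρ h
    apply hno ρ.re
    rw [← h, Complex.re_add_im]
    exact (hs ρ hρ).2
  obtain ⟨hpc, hpi⟩ := pf_int s hns
  have hmem : ∀ x : ℝ, x ∈ Set.Icc (1 / 2 : ℝ) 2 → ((x : ℂ) + t * I) ∈ closedBall (⟨2, t⟩ : ℂ) 1.5 := by
    intro x hx
    rw [mem_closedBall, dist_eq_norm]
    have e : (x : ℂ) + t * I - ⟨2, t⟩ = ((x - 2 : ℝ) : ℂ) := by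
      apply Complex.ext <;> simp
    rw [e, Complex.norm_real, Real.norm_eq_abs, abs_le]
    constructor <;> linarith [hx.1, hx.2]
  have hsplit : ∀ x : ℝ, x ∈ Set.Icc (1 / 2 : ℝ) 2 → logDeriv riemannZeta ((x : ℂ) + t * I) =
      pf s ((x : ℂ) + t * I) + logDeriv g ((x : ℂ) + t * I) := by
    intro x hx
    have hne : ∀ ρ ∈ s, ((x : ℂ) + t * I) ≠ ρ := by
      intro ρ hρ h
      apply hns ρ hρ
      rw [← h]
      simp
    have hz := hmem x hx
    have hz1 : ((x : ℂ) + t * I) ∈ closedBall (⟨2, t⟩ : ℂ) 1.7 :=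
      closedBall_subset_closedBall (by norm_num) hz
    have hz2 : ((x : ℂ) + t * I) ∈ closedBall (⟨2, t⟩ : ℂ) 1.9 :=
      closedBall_subset_closedBall (by norm_num) hz
    have e1 : riemannZeta = fun z => Pf s z * g z := funext hfg
    rw [e1, ← logDeriv_Pf' hne]
    exact logDeriv_mul _ (Pf_ne_zero hne) (hg0 _ hz1) (Pf_diff s _) (hg _ hz2).differentiableAt
  have hzc : Continuous fun x : ℝ => (logDeriv riemannZeta ((x : ℂ) + t * I)).im := by
    refine continuous_im.comp ?_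
    rw [continuous_iff_continuousAt]
    intro x
    have ha : AnalyticAt ℂ riemannZeta ((x : ℂ) + t * I) := zeta_an (by simp; linarith)
    have hc' : ContinuousAt (logDeriv riemannZeta) ((x : ℂ) + t * I) := by
      unfold logDeriv
      exact (ha.deriv.continuousAt).div ha.continuousAt (hno x)
    exact ContinuousAt.comp (f := fun x : ℝ => ((x : ℂ) + t * I)) hc' (by fun_prop)
  have e1 : ∫ x in (1 / 2 : ℝ)..2, (logDeriv riemannZeta ((x : ℂ) + t * I)).im =
      (∫ x in (1 / 2 : ℝ)..2, (pf s ((x : ℂ) + t * I)).im) +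
      ∫ x in (1 / 2 : ℝ)..2, ((logDeriv riemannZeta ((x : ℂ) + t * I)).im -
        (pf s ((x : ℂ) + t * I)).im) := by
    rw [intervalIntegral.integral_sub (hzc.intervalIntegrable _ _) (hpc.intervalIntegrable _ _)]
    ring
  have e2 : |∫ x in (1 / 2 : ℝ)..2, ((logDeriv riemannZeta ((x : ℂ) + t * I)).im -
        (pf s ((x : ℂ) + t * I)).im)| ≤ D * Real.log t * |(2 : ℝ) - 1 / 2| := by
    rw [← Real.norm_eq_abs]
    refine intervalIntegral.norm_integral_le_of_norm_le_const fun x hx => ?_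
    rw [Set.uIoc_of_le (by norm_num)] at hx
    have hx' : x ∈ Set.Icc (1 / 2 : ℝ) 2 := ⟨hx.1.le, hx.2⟩
    rw [hsplit x hx', add_im, add_sub_cancel_left, Real.norm_eq_abs]
    refine (abs_im_le_norm _).trans ((hlg _ (hmem x hx')).trans ?_)
    have h1 : Real.log (M / ‖riemannZeta ⟨2, t⟩‖) + Real.log (M / ‖riemannZeta ⟨2, t⟩‖) / q * ℓ + 1 ≤
        (K + K / q * ℓ + 1) * Real.log t := by
      have a1 : Real.log (M / ‖riemannZeta ⟨2, t⟩‖) / q * ℓ ≤ K * Real.log t / q * ℓ := by gcongr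
      have a2 : (K + K / q * ℓ + 1) * Real.log t = K * Real.log t + K * Real.log t / q * ℓ +
        Real.log t := by ring
      rw [a2]
      linarith
    calc 2 * (Real.log (M / ‖riemannZeta ⟨2, t⟩‖) + Real.log (M / ‖riemannZeta ⟨2, t⟩‖) / q * ℓ + 1) *
          1.6 / (1.7 - 1.6) / (1.6 - 1.5)
        ≤ 2 * ((K + K / q * ℓ + 1) * Real.log t) * 1.6 / (1.7 - 1.6) / (1.6 - 1.5) := by
          have b1 : (0 : ℝ) < 1.7 - 1.6 := by norm_num
          have b2 : (0 : ℝ) < 1.6 - 1.5 := by norm_num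
          gcongr
      _ = D * Real.log t := by rw [hD]; ring
  rw [e1]
  refine (abs_add_le _ _).trans ?_
  have h3 : |(2 : ℝ) - 1 / 2| ≤ 2 := by norm_num
  have h4 : (Multiset.card s : ℝ) ≤ K / q * Real.log t := by
    refine hcard.trans ?_
    rw [div_mul_eq_mul_div]
    gcongr
  have h5 : D * Real.log t * |(2 : ℝ) - 1 / 2| ≤ D * Real.log t * 2 := by gcongr
  have h6 : Real.pi * (Multiset.card s : ℝ) ≤ Real.pi * (K / q * Real.log t) :=
    mul_le_mul_of_nonneg_left h4 Real.pi_pos.le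
  calc _ ≤ Real.pi * (K / q * Real.log t) + D * Real.log t * 2 :=
        add_le_add (hpi.trans h6) (e2.trans h5)
    _ = _ := by ring

/-- `ζ` is near `1` on the line `Re s = 2` -/
lemma re_zeta_pos (u : ℝ) : 0 < (riemannZeta ((2 : ℂ) + u * I)).re := by
  set s : ℂ := (2 : ℂ) + u * I with hs
  have hre : s.re = 2 := by simp [hs]
  have h1 : 1 < s.re := by rw [hre]; norm_num
  have h2 := zeta_eq_tsum_one_div_nat_add_one_cpow h1
  have hterm : ∀ n : ℕ, ‖1 / ((n : ℂ) + 1) ^ s‖ = 1 / ((n : ℝ) + 1) ^ 2 := by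
    intro n
    have e : ((n : ℂ) + 1) = (((n : ℝ) + 1 : ℝ) : ℂ) := by push_cast; ring
    rw [norm_div, norm_one, e, norm_cpow_eq_rpow_re_of_pos (by positivity), hre]
    norm_cast
  have hz := hasSum_zeta_two
  have hz2 := (hasSum_nat_add_iff' 2).mpr hz
  have hz1 := (hasSum_nat_add_iff' 1).mpr hz
  have hsum : Summable fun n : ℕ => 1 / ((n : ℂ) + 1) ^ s := by
    refine Summable.of_norm ?_
    simp_rw [hterm]
    refine hz1.summable.congr fun n => ?_
    push_cast
    ring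
  rw [hsum.tsum_eq_zero_add] at h2
  have h3 : ‖∑' n : ℕ, 1 / (((n + 1 : ℕ) : ℂ) + 1) ^ s‖ ≤ Real.pi ^ 2 / 6 - 1 := by
    refine tsum_of_norm_bounded (g := fun n : ℕ => 1 / (((n + 2 : ℕ) : ℝ)) ^ 2) ?_ ?_
    · convert! hz2 using 1
      simp [Finset.sum_range_succ]
    · intro n
      rw [hterm]
      push_cast
      refine le_of_eq ?_
      ring
  rw [h2]
  have h4 : (1 / (((0 : ℕ) : ℂ) + 1) ^ s : ℂ) = 1 := by simp
  rw [h4, add_re, one_re]
  have h5 := (abs_le.1 ((abs_re_le_norm (∑' n : ℕ, 1 / (((n + 1 : ℕ) : ℂ) + 1) ^ s)).trans h3)).1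
  have h6 := Real.pi_lt_d2
  have h7 := Real.pi_pos
  nlinarith

/-- the vertical integral -/
theorem ver_bd (t : ℝ) : |∫ u in (0 : ℝ)..t, (logDeriv riemannZeta ((2 : ℂ) + u * I)).re| ≤
    2 * Real.pi := by
  have hne1 : ∀ u : ℝ, ((2 : ℂ) + u * I) ≠ 1 := by
    intro u h
    have := congrArg Complex.re h
    simp at this
  have hne : ∀ u : ℝ, riemannZeta ((2 : ℂ) + u * I) ≠ 0 := by
    intro u h
    have := re_zeta_pos u
    rw [h] at this
    simp at this
  have hd : ∀ u ∈ Set.uIcc 0 t, HasDerivAt (fun u : ℝ => (Complex.log (riemannZeta ((2 : ℂ) + u * I))).im)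
      ((logDeriv riemannZeta ((2 : ℂ) + u * I)).re) u := by
    intro u _
    have h1 : HasDerivAt (fun u : ℝ => (2 : ℂ) + u * I) I u := by
      simpa using ((Complex.ofRealCLM.hasDerivAt (x := u)).mul_const I).const_add (2 : ℂ)
    have h2 : HasDerivAt riemannZeta (deriv riemannZeta ((2 : ℂ) + u * I)) ((2 : ℂ) + u * I) :=
      (differentiableAt_riemannZeta (hne1 u)).hasDerivAt
    have h3 := HasDerivAt.comp u h2 h1
    have h4 := h3.clog_real (Or.inl (re_zeta_pos u))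
    have h5 := (Complex.imCLM.hasFDerivAt.comp_hasDerivAt u h4)
    refine h5.congr_deriv ?_
    rw [logDeriv_apply]
    simp only [imCLM_apply, Function.comp_apply]
    have h6 : deriv riemannZeta ((2 : ℂ) + u * I) * I / riemannZeta ((2 : ℂ) + u * I) =
        I * (deriv riemannZeta ((2 : ℂ) + u * I) / riemannZeta ((2 : ℂ) + u * I)) := by ring
    rw [h6, I_mul_im]
  have hc : Continuous fun u : ℝ => (logDeriv riemannZeta ((2 : ℂ) + u * I)).re := by
    refine continuous_re.comp ?_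
    rw [continuous_iff_continuousAt]
    intro u
    have ha : AnalyticAt ℂ riemannZeta ((2 : ℂ) + u * I) := by
      refine DifferentiableOn.analyticAt (s := {1}ᶜ) (fun z hz =>
        (differentiableAt_riemannZeta hz).differentiableWithinAt) ?_
      exact isOpen_compl_singleton.mem_nhds (hne1 u)
    have hc' : ContinuousAt (logDeriv riemannZeta) ((2 : ℂ) + u * I) := by
      unfold logDeriv
      exact (ha.deriv.continuousAt).div ha.continuousAt (hne u)
    exact ContinuousAt.comp (f := fun u : ℝ => ((2 : ℂ) + u * I)) hc' (by fun_prop)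
  rw [intervalIntegral.integral_eq_sub_of_hasDerivAt hd (hc.intervalIntegrable _ _)]
  have h1 : ∀ z : ℂ, |(Complex.log z).im| ≤ Real.pi := fun z => by
    rw [log_im]; exact abs_arg_le_pi z
  refine (abs_sub _ _).trans ?_
  linarith [h1 (riemannZeta ((2 : ℂ) + t * I)), h1 (riemannZeta ((2 : ℂ) + (0 : ℝ) * I))]

/-- the bound for the argument -/
theorem piS_bd : ∃ C : ℝ, 0 < C ∧ ∀ t : ℝ, 3 ≤ t → NoOrd t → |piS t| ≤ C * Real.log t := by
  obtain ⟨C, hC, h⟩ := hor_bd
  refine ⟨2 * Real.pi + C, by have := Real.pi_pos; positivity, fun t ht hno => ?_⟩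
  have hlt := one_le_log ht
  unfold piS
  refine (abs_sub _ _).trans ?_
  have h1 := ver_bd t
  have h2 := h t ht hno
  have h3 : 2 * Real.pi ≤ 2 * Real.pi * Real.log t :=
    le_mul_of_one_le_right (by have := Real.pi_pos; positivity) hlt
  linarith [add_mul (2 * Real.pi) C (Real.log t)]

end Pool.Agent.U15.MV4
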