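import Pool.Agent.U15.MV4.GamA
import Pool.Agent.U15.MV4.PiS

/-!
# Project MV4, package CN: the fluctuation of the counting function of the zeros
-/

set_option autoImplicit false

namespace Pool.Agent.U15.MV4

open Complex MeasureTheory Filter Topology Set
open Pool.Agent.U84.MV2 Pool.Agent.U398.MV H370.Loc

theorem noOrd_between {a b : ℝ} (h : a < b) : ∃ t : ℝ, NoOrd t ∧ a < t ∧ t < b := by
  have hd : Dense {t : ℝ | NoOrd t} := MeasureTheory.Measure.dense_of_ae ae_noOrd
  obtain ⟨z, hz, hz1, hz2⟩ := hd.exists_between h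
  exact ⟨z, hz, hz1, hz2⟩

theorem coreA {N : ℝ → ℕ} (hN : ∀ t u : ℝ, 0 < t → t < u → N u = N t + Nz t u)
    {t u : ℝ} (ht : 2 ≤ t) (htu : t < u) (h1 : NoOrd t) (h2 : NoOrd u) :
    |Real.pi * (sg N u - sg N t) - (piS u - piS t)| ≤ 9 * Real.log (u / t) := by
  have h := count2 (by linarith) htu h1 h2
  have h3 := gamB ht htu.le
  have h4 : (N u : ℝ) = N t + Nz t u := by exact_mod_cast hN t u (by linarith) htu
  have e : Real.pi * (sg N u - sg N t) - (piS u - piS t) =
      (∫ y in t..u, (logDeriv Gammaℝ ⟨1 / 2, y⟩).re) - Real.pi * (Mf u - Mf t) := by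
    unfold sg
    rw [h4]
    linear_combination h
  rw [e]
  exact h3

theorem pS_eq (t : ℝ) : pS t = 1 / Real.pi * piS t := rfl

theorem coreC {N : ℝ → ℕ} (hN : ∀ t u : ℝ, 0 < t → t < u → N u = N t + Nz t u) :
    ∃ (Z : Set ℝ) (C : ℝ), volume Z = 0 ∧ 0 < C ∧ ∀ t u : ℝ, t ∉ Z → u ∉ Z → 10 ≤ t → t < u →
      u ≤ 2 * t → |(pS u - pS t) - (sg N u - sg N t)| ≤ C := by
  refine ⟨{t : ℝ | ¬ NoOrd t}, 9, ae_iff.1 ae_noOrd, by norm_num, ?_⟩
  intro t u ht hu ht10 htu hu2
  have ht' : NoOrd t := not_not.1 ht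
  have hu' : NoOrd u := not_not.1 hu
  have h := coreA hN (by linarith) htu ht' hu'
  have ht0 : 0 < t := by linarith
  have hl : Real.log (u / t) ≤ 1 := by
    have h1 : Real.log (u / t) ≤ Real.log 2 :=
      Real.log_le_log (div_pos (by linarith) ht0) (by rw [div_le_iff₀ ht0]; linarith)
    have h2 := Real.log_two_lt_d9
    linarith
  have hpi := Real.pi_gt_three
  have e : (pS u - pS t) - (sg N u - sg N t) =
      -(1 / Real.pi * (Real.pi * (sg N u - sg N t) - (piS u - piS t))) := by
    rw [pS_eq, pS_eq]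
    field_simp
    ring
  rw [e, abs_neg, abs_mul, abs_of_pos (by positivity : (0 : ℝ) < 1 / Real.pi)]
  have h5 : 1 / Real.pi ≤ 1 := by
    rw [div_le_one (by positivity)]
    linarith
  have h6 : 0 ≤ |Real.pi * (sg N u - sg N t) - (piS u - piS t)| := abs_nonneg _
  calc 1 / Real.pi * |Real.pi * (sg N u - sg N t) - (piS u - piS t)| ≤
      1 * |Real.pi * (sg N u - sg N t) - (piS u - piS t)| := mul_le_mul_of_nonneg_right h5 h6
    _ ≤ 9 := by linarith

theorem coreB {N : ℝ → ℕ} (hmono : Monotone N)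
    (hN : ∀ t u : ℝ, 0 < t → t < u → N u = N t + Nz t u)
    (hr : ∀ t : ℝ, ∃ t' : ℝ, t < t' ∧ N t' = N t) :
    ∃ C1 : ℝ, 1 ≤ C1 ∧ ∀ t : ℝ, 10 ≤ t → |sg N t| ≤ C1 * Real.log t := by
  obtain ⟨C, hC, hpiS⟩ := piS_bd
  obtain ⟨t0, hno0, h9, h10⟩ := noOrd_between (show (9 : ℝ) < 10 by norm_num)
  set K : ℝ := |sg N t0| + |piS t0| + C + 9 with hK
  have hK9 : 9 ≤ K := by
    have h1 := abs_nonneg (sg N t0)
    have h2 := abs_nonneg (piS t0)
    linarith
  have hpi := Real.pi_gt_three
  -- the points without zeros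
  have hA : ∀ t : ℝ, 10 ≤ t → NoOrd t → |sg N t| ≤ K * Real.log t := by
    intro t ht hno
    have h1 := coreA hN (by linarith) (show t0 < t by linarith) hno0 hno
    have h2 := hpiS t (by linarith) hno
    have hlt : 1 ≤ Real.log t := one_le_log (by linarith)
    have hlt2 : Real.log (t / t0) ≤ Real.log t := by
      refine Real.log_le_log (by positivity) ?_
      rw [div_le_iff₀ (by linarith)]
      nlinarith
    have h3 : |Real.pi * (sg N t - sg N t0)| ≤ 9 * Real.log t + |piS t| + |piS t0| := by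
      have e : Real.pi * (sg N t - sg N t0) =
        (Real.pi * (sg N t - sg N t0) - (piS t - piS t0)) + (piS t - piS t0) := by ring
      rw [e]
      refine (abs_add_le _ _).trans ?_
      have := abs_sub (piS t) (piS t0)
      linarith
    rw [abs_mul, abs_of_pos Real.pi_pos] at h3
    have h4 : |sg N t - sg N t0| ≤ Real.pi * |sg N t - sg N t0| :=
      le_mul_of_one_le_left (abs_nonneg _) (by linarith)
    have h5 : |sg N t| ≤ |sg N t - sg N t0| + |sg N t0| := by
      have := abs_add_le (sg N t - sg N t0) (sg N t0)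
      rwa [sub_add_cancel] at this
    have h6 : |sg N t0| ≤ |sg N t0| * Real.log t := le_mul_of_one_le_right (abs_nonneg _) hlt
    have h7 : |piS t0| ≤ |piS t0| * Real.log t := le_mul_of_one_le_right (abs_nonneg _) hlt
    rw [hK]
    have e : (|sg N t0| + |piS t0| + C + 9) * Real.log t = |sg N t0| * Real.log t +
      |piS t0| * Real.log t + C * Real.log t + 9 * Real.log t := by ring
    rw [e]
    linarith
  refine ⟨2 * K + 1, by linarith, ?_⟩
  intro t ht
  have ht0 : 0 < t := by linarith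
  obtain ⟨t1, h1, h2⟩ := hr t
  have hcont : ContinuousAt Mf t := (hasDerivAt_Mf ht0).continuousAt
  obtain ⟨δ, hδ, hd⟩ := Metric.continuousAt_iff.1 hcont 1 one_pos
  have hlt : t < min t1 (min (t + 1) (t + δ)) :=
    lt_min h1 (lt_min (by linarith) (by linarith))
  obtain ⟨t', hno, ha, hb⟩ := noOrd_between hlt
  have hb1 : t' < t1 := hb.trans_le (min_le_left _ _)
  have hb2 : t' < t + 1 := hb.trans_le ((min_le_right _ _).trans (min_le_left _ _))
  have hb3 : t' < t + δ := hb.trans_le ((min_le_right _ _).trans (min_le_right _ _))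
  have hNt : N t' = N t := le_antisymm (h2 ▸ hmono hb1.le) (hmono ha.le)
  have h3 := hA t' (by linarith) hno
  have h4 : |Mf t' - Mf t| < 1 := by
    have := hd (x := t') (by rw [Real.dist_eq, abs_of_pos (by linarith)]; linarith)
    rwa [Real.dist_eq] at this
  have h5 : sg N t = sg N t' + (Mf t' - Mf t) := by
    unfold sg
    rw [hNt]
    ring
  have hlog : 1 ≤ Real.log t := one_le_log (by linarith)
  have h6 : Real.log t' ≤ 2 * Real.log t := by
    have h7 : Real.log t' ≤ Real.log (t ^ 2) :=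
      Real.log_le_log (by linarith) (by nlinarith)
    rw [Real.log_pow] at h7
    exact_mod_cast h7
  rw [h5]
  refine (abs_add_le _ _).trans ?_
  have h8 : K * Real.log t' ≤ K * (2 * Real.log t) :=
    mul_le_mul_of_nonneg_left h6 (by linarith)
  have e : (2 * K + 1) * Real.log t = K * (2 * Real.log t) + Real.log t := by ring
  rw [e]
  linarith

end Pool.Agent.U15.MV4
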