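import Pool.Agent.U398.MV.Stm4
import Pool.Agent.U606.MV2.TG

/-!
# Project MV4, package CN: the gamma factor
-/

set_option autoImplicit false

namespace Pool.Agent.U15.MV4

open Complex MeasureTheory Filter Topology Set Pool.Agent.U398.MV

/-- Stirling for the digamma function -/
theorem psi_asymp {s : ℂ} (hs : 0 < s.re) (hs2 : s.re ≤ 1 / 2) (hi : 1 ≤ s.im) :
    |(logDeriv Gamma s).re - Real.log s.im| ≤ 9 / s.im := by
  have hy : 0 < s.im := by linarith
  have h0 := H370.DG.logDeriv_Gamma' hs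
  have e1 : |Real.log ‖s + 2‖ - Real.log s.im| ≤ 5 / 2 / s.im := by
    have a1 : s.im ≤ ‖s + 2‖ := by
      have := abs_im_le_norm (s + 2)
      simp only [add_im, im_ofNat, add_zero] at this
      rwa [abs_of_pos hy] at this
    have a2 : ‖s + 2‖ ≤ s.im + 5 / 2 := by
      refine (norm_le_abs_re_add_abs_im (s + 2)).trans ?_
      simp only [add_re, re_ofNat, add_im, im_ofNat, add_zero]
      rw [abs_of_pos (by linarith), abs_of_pos hy]
      linarith
    have hp : 0 < ‖s + 2‖ := by linarith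
    rw [abs_of_nonneg (by linarith [Real.log_le_log hy a1]), ← Real.log_div hp.ne' hy.ne']
    refine (Real.log_le_sub_one_of_pos (by positivity)).trans ?_
    rw [div_sub_one hy.ne']
    gcongr
    linarith
  have e2 : |(1 / s).re| ≤ 1 / s.im := by
    refine (abs_re_le_norm _).trans ?_
    rw [norm_div, norm_one]
    refine one_div_le_one_div_of_le hy ?_
    exact (le_abs_self _).trans (abs_im_le_norm s)
  have e3 : |(1 / (s + 1)).re| ≤ 1 / s.im := by
    refine (abs_re_le_norm _).trans ?_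
    rw [norm_div, norm_one]
    refine one_div_le_one_div_of_le hy ?_
    have := (le_abs_self _).trans (abs_im_le_norm (s + 1))
    simpa using this
  have e4 : ‖∑' n, H370.DG.er n s‖ ≤ 4 / s.im := by
    have h1 : ∀ n : ℕ, ‖H370.DG.er n s‖ ≤
        2 * (1 / ((n : ℝ) + s.im - 1 / 2) - 1 / (((n + 1 : ℕ) : ℝ) + s.im - 1 / 2)) := by
      intro n
      have hn : (0 : ℝ) ≤ n := Nat.cast_nonneg n
      refine le_trans ?_ (Pool.Agent.U606.MV2.inv_sq_le hi n)
      have h2 := H370.DG.log_step (z := s + ((n : ℂ) + 2)) (by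
        simp only [add_re, natCast_re, re_ofNat]
        linarith)
      have h3 : s + ((n : ℂ) + 2) + 1 = s + (n + 3) := by ring
      rw [h3] at h2
      refine h2.trans ?_
      apply one_div_le_one_div_of_le (by positivity)
      rw [← Complex.normSq_eq_norm_sq, Complex.normSq_apply]
      simp only [add_re, natCast_re, re_ofNat, add_im, natCast_im, im_ofNat, add_zero]
      nlinarith
    refine (tsum_of_norm_bounded (Pool.Agent.U606.MV2.hasSum_tele hi) h1).trans ?_
    have h4 : 2 * (1 / (s.im - 1 / 2)) = 2 / (s.im - 1 / 2) := by ring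
    rw [h4, div_le_div_iff₀ (by linarith) hy]
    linarith
  have h5 : (logDeriv Gamma s).re - Real.log s.im = (Real.log ‖s + 2‖ - Real.log s.im) -
      (1 / s).re - (1 / (s + 1)).re + (∑' n, H370.DG.er n s).re := by
    rw [h0]
    simp only [add_re, sub_re, log_re]
    ring
  rw [h5]
  have e5 := (abs_re_le_norm (∑' n, H370.DG.er n s)).trans e4
  have e6 : (9 : ℝ) / s.im = 5 / 2 / s.im + 1 / s.im + 1 / s.im + 4 / s.im + 1 / 2 / s.im := by
    field_simp
    norm_num
  have e7 : 0 ≤ 1 / 2 / s.im := by positivity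
  rw [abs_le] at *
  constructor <;> linarith [e1.1, e1.2, e2.1, e2.2, e3.1, e3.2, e5.1, e5.2]

/-- the gamma factor on the critical line -/
theorem gamA {y : ℝ} (hy : 2 ≤ y) :
    |(logDeriv Gammaℝ ⟨1 / 2, y⟩).re - 1 / 2 * Real.log (y / (2 * Real.pi))| ≤ 9 / y := by
  have hy0 : 0 < y := by linarith
  have hpi := Real.pi_pos
  rw [Pool.Agent.U606.MV2.logDeriv_Gammaℝ (s := ⟨1 / 2, y⟩) (by show (0 : ℝ) < 1 / 2; norm_num)]
  have hre : ((⟨1 / 2, y⟩ : ℂ) / 2).re = 1 / 4 := by
    have : ((⟨1 / 2, y⟩ : ℂ) / 2).re = (1 / 2 : ℝ) / 2 := by simp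
    rw [this]
    norm_num
  have him : ((⟨1 / 2, y⟩ : ℂ) / 2).im = y / 2 := by simp
  have h1 := psi_asymp (s := (⟨1 / 2, y⟩ : ℂ) / 2) (by rw [hre]; norm_num) (by rw [hre]; norm_num)
    (by rw [him]; linarith)
  rw [him] at h1
  set g := logDeriv Gamma ((⟨1 / 2, y⟩ : ℂ) / 2) with hg
  have h2 : (-(Real.log Real.pi : ℂ) / 2 + 1 / 2 * g).re = -Real.log Real.pi / 2 + g.re / 2 := by
    have e1 : (-(Real.log Real.pi : ℂ) / 2 + 1 / 2 * g) =
        ((-Real.log Real.pi / 2 : ℝ) : ℂ) + ((1 / 2 : ℝ) : ℂ) * g := by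
      push_cast
      ring
    rw [e1, add_re, ofReal_re, re_ofReal_mul]
    ring
  rw [h2]
  have h3 : Real.log (y / (2 * Real.pi)) = Real.log (y / 2) - Real.log Real.pi := by
    rw [← div_div, Real.log_div (by positivity) hpi.ne']
  rw [h3]
  have h4 : -Real.log Real.pi / 2 + g.re / 2 - 1 / 2 * (Real.log (y / 2) - Real.log Real.pi) =
      (g.re - Real.log (y / 2)) / 2 := by ring
  rw [h4, abs_div, abs_two, div_le_iff₀ (by norm_num)]
  refine h1.trans (le_of_eq ?_)
  field_simp

theorem hasDerivAt_Mf {t : ℝ} (ht : 0 < t) :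
    HasDerivAt Mf (1 / (2 * Real.pi) * Real.log (t / (2 * Real.pi))) t := by
  have hpi : (0 : ℝ) < 2 * Real.pi := by positivity
  unfold Mf
  have h1 : HasDerivAt (fun t : ℝ => t / (2 * Real.pi)) (1 / (2 * Real.pi)) t :=
    (hasDerivAt_id t).div_const _
  have h2 := h1.log (by positivity)
  refine ((h1.mul h2).sub h1).congr_deriv ?_
  field_simp
  ring

theorem cont_gam : Continuous fun y : ℝ => (logDeriv Gammaℝ ⟨1 / 2, y⟩).re := by
  have h1 : (fun y : ℝ => (logDeriv Gammaℝ ⟨1 / 2, y⟩).re) = fun y : ℝ =>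
      -Real.log Real.pi / 2 + (logDeriv Gamma ((⟨1 / 2, y⟩ : ℂ) / 2)).re / 2 := by
    funext y
    rw [Pool.Agent.U606.MV2.logDeriv_Gammaℝ (s := ⟨1 / 2, y⟩) (by show (0 : ℝ) < 1 / 2; norm_num)]
    have e1 : (-(Real.log Real.pi : ℂ) / 2 + 1 / 2 * logDeriv Gamma ((⟨1 / 2, y⟩ : ℂ) / 2)) =
        ((-Real.log Real.pi / 2 : ℝ) : ℂ) + ((1 / 2 : ℝ) : ℂ) *
          logDeriv Gamma ((⟨1 / 2, y⟩ : ℂ) / 2) := by
      push_cast
      ring
    rw [e1, add_re, ofReal_re, re_ofReal_mul]
    ring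
  rw [h1]
  refine continuous_const.add (Continuous.div_const ?_ 2)
  refine continuous_re.comp ?_
  rw [continuous_iff_continuousAt]
  intro y
  have hline : Continuous fun y : ℝ => ((⟨1 / 2, y⟩ : ℂ) / 2) := by
    have : (fun y : ℝ => ((⟨1 / 2, y⟩ : ℂ) / 2)) = fun y : ℝ => (((1 / 2 : ℝ) : ℂ) + y * I) / 2 := by
      funext y
      congr 1
      apply Complex.ext <;> simp
    rw [this]
    fun_prop
  have hre : 0 < ((⟨1 / 2, y⟩ : ℂ) / 2).re := by
    have : ((⟨1 / 2, y⟩ : ℂ) / 2).re = (1 / 2 : ℝ) / 2 := by simp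
    rw [this]
    norm_num
  have hU : IsOpen {z : ℂ | 0 < z.re} := isOpen_lt continuous_const continuous_re
  have hd : DifferentiableOn ℂ Gamma {z : ℂ | 0 < z.re} := by
    intro z hz
    refine (Complex.differentiableAt_Gamma _ fun m h => ?_).differentiableWithinAt
    have h2 := congrArg Complex.re h
    simp only [neg_re, natCast_re] at h2
    have hm : (0 : ℝ) ≤ m := Nat.cast_nonneg m
    have hz' : 0 < z.re := hz
    linarith
  have ha : AnalyticAt ℂ Gamma ((⟨1 / 2, y⟩ : ℂ) / 2) := hd.analyticAt (hU.mem_nhds hre)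
  have hc : ContinuousAt (logDeriv Gamma) ((⟨1 / 2, y⟩ : ℂ) / 2) :=
    (ha.deriv.continuousAt).div ha.continuousAt (Gamma_ne_zero_of_re_pos hre)
  exact ContinuousAt.comp (f := fun y : ℝ => ((⟨1 / 2, y⟩ : ℂ) / 2)) hc hline.continuousAt

/-- the integral of the gamma factor -/
theorem gamB {t u : ℝ} (ht : 2 ≤ t) (htu : t ≤ u) :
    |(∫ y in t..u, (logDeriv Gammaℝ ⟨1 / 2, y⟩).re) - Real.pi * (Mf u - Mf t)| ≤
      9 * Real.log (u / t) := by
  have hpi := Real.pi_pos
  have hpos : ∀ y ∈ Set.uIcc t u, 0 < y := fun y hy => by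
    rw [uIcc_of_le htu] at hy
    linarith [hy.1]
  have h1 : ∫ y in t..u, 1 / 2 * Real.log (y / (2 * Real.pi)) = Real.pi * (Mf u - Mf t) := by
    have h2 : ∀ y ∈ Set.uIcc t u, HasDerivAt (fun y => Real.pi * Mf y)
        (1 / 2 * Real.log (y / (2 * Real.pi))) y := by
      intro y hy
      refine ((hasDerivAt_Mf (hpos y hy)).const_mul Real.pi).congr_deriv ?_
      field_simp
    have h3 : ContinuousOn (fun y : ℝ => 1 / 2 * Real.log (y / (2 * Real.pi))) (Set.uIcc t u) := by
      refine continuousOn_const.mul (ContinuousOn.log (by fun_prop) fun y hy => ?_)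
      have := hpos y hy
      positivity
    rw [intervalIntegral.integral_eq_sub_of_hasDerivAt h2 h3.intervalIntegrable]
    ring
  have h3 : ContinuousOn (fun y : ℝ => 1 / 2 * Real.log (y / (2 * Real.pi))) (Set.uIcc t u) := by
    refine continuousOn_const.mul (ContinuousOn.log (by fun_prop) fun y hy => ?_)
    have := hpos y hy
    positivity
  rw [← h1, ← intervalIntegral.integral_sub (cont_gam.intervalIntegrable _ _) h3.intervalIntegrable]
  have h4 : ∫ y in t..u, 9 / y = 9 * Real.log (u / t) := by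
    have : ∀ y : ℝ, 9 / y = 9 * y⁻¹ := fun y => by rw [div_eq_mul_inv]
    simp_rw [this]
    rw [intervalIntegral.integral_const_mul, integral_inv_of_pos (by linarith) (by linarith)]
  rw [← h4, ← Real.norm_eq_abs]
  refine intervalIntegral.norm_integral_le_of_norm_le htu ?_ ?_
  · refine Eventually.of_forall fun y hy => ?_
    exact gamA (by linarith [hy.1])
  · refine ContinuousOn.intervalIntegrable fun y hy => ?_
    have := hpos y hy
    exact (continuousAt_const.div continuousAt_id this.ne').continuousWithinAt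

end Pool.Agent.U15.MV4
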